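import Pool.Agent.V5helper64.LC.Zer
import Pool.Agent.N924.LP.Main

/-!
# The number of the members of the families with `r₁ + 2 r₂` parameters in a box for which Leopoldt's conjecture fails
-/

set_option autoImplicit false

namespace Pool.Agent.V5helper64.LC

open Pool.Agent.N924.LP Finset

noncomputable section

/-- vectors with one coordinate nearly determined by the others -/
lemma near_card {ι : Type} [Fintype ι] [DecidableEq ι] (w : ι → ℤ) (N : ι → ℕ) (M : ℕ) (hM : 1 ≤ M)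
    (hMN : ∀ i, M ≤ N i) (i : ι) (g : (ι → ℤ) → ℤ) (hg : ∀ x x' : ι → ℤ, (∀ l, l ≠ i → x l = x' l) → g x = g x')
    (D : Finset ℤ) (T : Finset (ι → ℤ))
    (hT : ∀ x ∈ T, (∀ l, x l ∈ Ioc (w l) (w l + N l)) ∧ x i - g x ∈ D) :
    (T.card : ℝ) ≤ D.card * ((∏ i, (N i : ℝ)) / M) := by
  have hM0 : (0 : ℝ) < M := by exact_mod_cast hM
  let P : Finset (ι → ℤ) := Fintype.piFinset fun l => if l = i then {0} else Ioc (w l) (w l + N l)
  have hP : (P.card : ℝ) * N i = ∏ l, (N l : ℝ) := by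
    have h1 : P.card = ∏ l, (if l = i then 1 else N l) := by
      change (Fintype.piFinset fun l => if l = i then {0} else Ioc (w l) (w l + N l)).card = _
      rw [Fintype.card_piFinset]
      refine Finset.prod_congr rfl fun l _ => ?_
      split_ifs
      · rfl
      · simp
    have h2 : (∏ l, (if l = i then 1 else N l)) * N i = ∏ l, N l := by
      rw [← Finset.mul_prod_erase univ (fun l => if l = i then 1 else N l) (mem_univ i),
        ← Finset.mul_prod_erase univ N (mem_univ i)]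
      have h3 : ∏ x ∈ univ.erase i, (if x = i then 1 else N x) = ∏ x ∈ univ.erase i, N x :=
        Finset.prod_congr rfl fun x hx => by rw [if_neg (Finset.ne_of_mem_erase hx)]
      rw [h3]
      simp [mul_comm]
    rw [h1]
    exact_mod_cast h2
  have hcard : T.card ≤ (P ×ˢ D).card := by
    refine Finset.card_le_card_of_injOn (fun x => (Function.update x i 0, x i - g x)) ?_ ?_
    · intro x hx
      obtain ⟨h1, h2⟩ := hT x (Finset.mem_coe.1 hx)
      refine Finset.mem_coe.2 (Finset.mem_product.2 ⟨?_, h2⟩)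
      rw [Fintype.mem_piFinset]
      intro l
      by_cases hl : l = i
      · subst hl
        simp
      · rw [if_neg hl]
        simp only [Function.update_of_ne hl]
        exact h1 l
    · intro x _ x' _ hxx
      have h1 : Function.update x i 0 = Function.update x' i 0 := congrArg Prod.fst hxx
      have h2 : x i - g x = x' i - g x' := congrArg Prod.snd hxx
      have h3 : ∀ l, l ≠ i → x l = x' l := by
        intro l hl
        have := congrFun h1 l
        rwa [Function.update_of_ne hl, Function.update_of_ne hl] at this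
      funext l
      by_cases hl : l = i
      · subst hl
        rw [hg x x' h3] at h2
        linarith
      · exact h3 l hl
  rw [Finset.card_product] at hcard
  have hN : (M : ℝ) ≤ N i := by exact_mod_cast hMN i
  have hP2 : (P.card : ℝ) ≤ (∏ l, (N l : ℝ)) / M := by
    rw [le_div_iff₀ hM0, ← hP]
    exact mul_le_mul_of_nonneg_left hN (Nat.cast_nonneg _)
  calc (T.card : ℝ) ≤ (P.card : ℝ) * D.card := by exact_mod_cast hcard
    _ ≤ ((∏ l, (N l : ℝ)) / M) * D.card := mul_le_mul_of_nonneg_right hP2 (Nat.cast_nonneg _)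
    _ = _ := mul_comm _ _

variable {r₁ r₂ : ℕ}

/-- one class modulo `p ^ 2` -/
lemma class_card {p : ℕ} [hp : Fact p.Prime] {s : ℕ} (e : Idx r₁ r₂ ≃ Fin s) {Y : Sys p s} (hY : Cnt Y)
    {h : Y.R} (hh : h ≠ 0) (ρ : Idx r₁ r₂ → ℤ) : ∃ C : ℝ, 0 ≤ C ∧ ∀ (w : Idx r₁ r₂ → ℤ)
    (N : Idx r₁ r₂ → ℕ) (M : ℕ), 1 ≤ M → (∀ i, M ≤ N i) → ∀ T : Finset (Idx r₁ r₂ → ℤ),
      (∀ v ∈ T, (∀ l, v l ∈ Ioc (w l) (w l + N l)) ∧ ∃ y : Fin s → ℤ,
        (∀ i, v i = ρ i + (p : ℤ) ^ 2 * y (e i)) ∧ Y.ev (fun i => ((y i : ℤ) : ℤ_[p])) h = 0) →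
      (T.card : ℝ) ≤ C * ((∏ i, (N i : ℝ)) / M) := by
  classical
  obtain ⟨C, hC, h1⟩ := hY.zeros hh
  refine ⟨C, hC, fun w N M hM hMN T hT => ?_⟩
  have hpp : (0 : ℤ) < (p : ℤ) ^ 2 := by
    have := hp.out.pos
    positivity
  choose! y hy using fun v hv => (hT v hv).2
  let w' : Fin s → ℤ := fun j => (w (e.symm j) - ρ (e.symm j)) / (p : ℤ) ^ 2
  let N' : Fin s → ℕ := fun j => N (e.symm j)
  have h2 := h1 w' N' M hM (fun j => hMN _) (T.image y) (by
    intro z hz
    obtain ⟨v, hv, rfl⟩ := Finset.mem_image.1 hz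
    refine ⟨?_, (hy v hv).2⟩
    rw [mem_box]
    intro j
    have h3 := (hT v hv).1 (e.symm j)
    have h4 := (hy v hv).1 (e.symm j)
    rw [Equiv.apply_symm_apply] at h4
    rw [Finset.mem_Ioc, h4] at h3
    rw [Finset.mem_Ioc]
    change (w (e.symm j) - ρ (e.symm j)) / (p : ℤ) ^ 2 < y v j ∧
      y v j ≤ (w (e.symm j) - ρ (e.symm j)) / (p : ℤ) ^ 2 + N (e.symm j)
    have hN1 : (1 : ℤ) ≤ (N (e.symm j) : ℤ) := by exact_mod_cast (hM.trans (hMN _))
    set Wj := w (e.symm j) - ρ (e.symm j) with hW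
    have h5 : Wj < (p : ℤ) ^ 2 * y v j := by linarith [h3.1]
    have h6 : (p : ℤ) ^ 2 * y v j ≤ Wj + N (e.symm j) := by linarith [h3.2]
    have h7 := Int.emod_add_mul_ediv Wj ((p : ℤ) ^ 2)
    have h8 := Int.emod_nonneg Wj hpp.ne'
    have h9 := Int.emod_lt_of_pos Wj hpp
    set q := Wj / (p : ℤ) ^ 2 with hq
    constructor
    · by_contra hcon
      rw [not_lt] at hcon
      have := mul_le_mul_of_nonneg_left hcon hpp.le
      linarith
    · by_contra hcon
      rw [not_le] at hcon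
      have h10 : q + N (e.symm j) + 1 ≤ y v j := hcon
      have h11 := mul_le_mul_of_nonneg_left h10 hpp.le
      have h12 : (N (e.symm j) : ℤ) ≤ (p : ℤ) ^ 2 * (N (e.symm j) : ℤ) := by
        nlinarith
      nlinarith)
  have hinj : Set.InjOn y (T : Set (Idx r₁ r₂ → ℤ)) := by
    intro v hv v' hv' hvv
    funext i
    rw [(hy v hv).1 i, (hy v' hv').1 i, hvv]
  rw [Finset.card_image_of_injOn hinj] at h2
  have h3 : ∏ j, ((N' j : ℕ) : ℝ) = ∏ i, (N i : ℝ) := by
    exact Equiv.prod_comp e.symm (fun i => (N i : ℝ))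
  rwa [h3] at h2

/-- **Exceptions in boxes.** -/
theorem boxes (p : ℕ) [hp : Fact p.Prime] (hr : 1 ≤ r₁ + r₂) : ∃ C : ℝ, 0 ≤ C ∧ ∀ (w : Idx r₁ r₂ → ℤ)
    (N : Idx r₁ r₂ → ℕ) (M : ℕ), 1 ≤ M → (∀ i, M ≤ N i) → ∀ T : Finset (Idx r₁ r₂ → ℤ),
      (∀ v ∈ T, (∀ l, v l ∈ Ioc (w l) (w l + N l)) ∧ (∀ k, 0 < v (Sum.inr (Sum.inr k))) ∧ ¬ Holds p v) →
      (T.card : ℝ) ≤ C * ((∏ i, (N i : ℝ)) / M) := by
  classical
  have hne2 : NeZero (p ^ 2) := ⟨pow_ne_zero _ hp.out.ne_zero⟩
  let s := Fintype.card (Idx r₁ r₂)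
  let e : Idx r₁ r₂ ≃ Fin s := Fintype.equivFin _
  obtain ⟨Y, hY⟩ := exists_cnt p s
  choose h hh0 hh using fun R : Idx r₁ r₂ → ZMod (p ^ 2) =>
    cls_abc p hr e Y (rep p e R) (rep_far p e R)
  choose C hC hCR using fun R : Idx r₁ r₂ → ZMod (p ^ 2) => class_card e hY (hh0 R) (rep p e R)
  let D : Finset ℤ := Finset.Ioo (-(bd r₁ r₂ : ℤ) ^ 2) ((bd r₁ r₂ : ℤ) ^ 2)
  refine ⟨∑ _x : Idx r₁ r₂ × Option (Idx r₁ r₂), (D.card : ℝ) + ∑ R, C R, ?_, ?_⟩
  · exact add_nonneg (Finset.sum_nonneg fun _ _ => Nat.cast_nonneg _) (Finset.sum_nonneg fun R _ => hC R)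
  intro w N M hM hMN T hT
  set V : ℝ := (∏ i, (N i : ℝ)) / M with hV
  let T₁ : Idx r₁ r₂ × Option (Idx r₁ r₂) → Finset (Idx r₁ r₂ → ℤ) := fun x =>
    if x.2 = some x.1 then ∅ else T.filter fun v => v x.1 - x.2.elim 0 v ∈ D
  let T₂ : (Idx r₁ r₂ → ZMod (p ^ 2)) → Finset (Idx r₁ r₂ → ℤ) := fun R =>
    T.filter fun v => ∃ y : Fin s → ℤ, (∀ i, v i = rep p e R i + (p : ℤ) ^ 2 * y (e i)) ∧
      Y.ev (fun i => ((y i : ℤ) : ℤ_[p])) (h R) = 0
  have hV0 : 0 ≤ V := div_nonneg (Finset.prod_nonneg fun i _ => Nat.cast_nonneg _) (Nat.cast_nonneg _)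
  have h1 : ∀ x, ((T₁ x).card : ℝ) ≤ D.card * V := by
    rintro ⟨i, j⟩
    by_cases hij : j = some i
    · simp only [T₁, if_pos hij, Finset.card_empty]
      push_cast
      positivity
    · simp only [T₁, if_neg hij]
      refine near_card w N M hM hMN i (fun v => j.elim 0 v) ?_ D _ ?_
      · intro x x' hxx
        rcases j with _ | j
        · rfl
        · have : j ≠ i := fun h => hij (by rw [h])
          simp only [Option.elim_some]
          exact hxx j this
      · intro x hx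
        rw [Finset.mem_filter] at hx
        exact ⟨(hT x hx.1).1, hx.2⟩
  have h2 : ∀ R, ((T₂ R).card : ℝ) ≤ C R * V := by
    intro R
    refine hCR R w N M hM hMN _ ?_
    intro v hv
    rw [Finset.mem_filter] at hv
    exact ⟨(hT v hv.1).1, hv.2⟩
  have hcover : T ⊆ (univ.biUnion T₁) ∪ (univ.biUnion T₂) := by
    intro v hv
    obtain ⟨_, hpos, hnot⟩ := hT v hv
    rw [Finset.mem_union]
    by_cases hx : ∃ x, v ∈ T₁ x
    · obtain ⟨x, hx⟩ := hx
      exact Or.inl (Finset.mem_biUnion.2 ⟨x, mem_univ _, hx⟩)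
    right
    have hno : ∀ i j, j ≠ some i → v i - j.elim 0 v ∉ D := by
      intro i j hij hmem
      refine hx ⟨(i, j), ?_⟩
      simp only [T₁, if_neg hij]
      exact Finset.mem_filter.2 ⟨hv, hmem⟩
    have hb1 : (bd r₁ r₂ : ℤ) ≤ (bd r₁ r₂ : ℤ) ^ 2 := by
      have : (3 : ℤ) ≤ bd r₁ r₂ := by
        have : 3 ≤ bd r₁ r₂ := by unfold bd; omega
        exact_mod_cast this
      nlinarith
    have habs : ∀ i j : Idx r₁ r₂, i ≠ j → (bd r₁ r₂ : ℤ) ≤ |v i - v j| := by
      intro i j hij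
      have h1 := hno i (some j) (by simpa using hij.symm)
      simp only [D, Option.elim_some, Finset.mem_Ioo, not_and_or, not_lt] at h1
      rcases h1 with h1 | h1
      · have := neg_le_abs (v i - v j)
        linarith
      · have := le_abs_self (v i - v j)
        linarith
    have hfar : FarV v := by
      refine ⟨fun i j hij => habs _ _ (by simpa using hij), fun k l hkl => habs _ _ (by simpa using hkl),
        fun k => ?_⟩
      have h1 := hno (Sum.inr (Sum.inr k)) none (by simp)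
      simp only [D, Option.elim_none, sub_zero, Finset.mem_Ioo, not_and_or, not_lt] at h1
      have h2 := hpos k
      have h3 : (0 : ℤ) ≤ (bd r₁ r₂ : ℤ) ^ 2 := by positivity
      rcases h1 with h1 | h1
      · linarith
      · exact_mod_cast h1
    have hbad : Bd p (r₁ + r₂ - 1) (pol v) := by
      by_contra hb
      exact hnot (holds_of p hr _ hfar hb)
    set R : Idx r₁ r₂ → ZMod (p ^ 2) := fun i => ((v i : ℤ) : ZMod (p ^ 2)) with hR
    have hdvd : ∀ i, (p : ℤ) ^ 2 ∣ v i - rep p e R i := by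
      intro i
      have h1 : ((p ^ 2 : ℕ) : ℤ) ∣ v i - ((R i).val : ℤ) := by
        rw [← ZMod.intCast_zmod_eq_zero_iff_dvd]
        push_cast
        rw [ZMod.natCast_zmod_val]
        change ((v i : ℤ) : ZMod (p ^ 2)) - ((v i : ℤ) : ZMod (p ^ 2)) = 0
        exact sub_self _
      push_cast at h1
      unfold rep
      obtain ⟨w, hw⟩ := h1
      refine ⟨w - (bd r₁ r₂ : ℤ) ^ 2 * ((e i : ℕ) + 1), ?_⟩
      rw [mul_sub, ← hw]
      ring
    choose y hy using hdvd
    have hy' : ∀ i, v i = rep p e R i + (p : ℤ) ^ 2 * (fun j => y (e.symm j)) (e i) := by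
      intro i
      simp only [Equiv.symm_apply_apply]
      rw [← hy i]
      ring
    refine Finset.mem_biUnion.2 ⟨R, mem_univ _, Finset.mem_filter.2 ⟨hv, ?_⟩⟩
    exact ⟨fun j => y (e.symm j), hy', hh R v _ hy' hbad⟩
  have hcard : T.card ≤ ∑ x, (T₁ x).card + ∑ R, (T₂ R).card :=
    (Finset.card_le_card hcover).trans ((Finset.card_union_le _ _).trans
      (Nat.add_le_add Finset.card_biUnion_le Finset.card_biUnion_le))
  calc (T.card : ℝ) ≤ ∑ x, ((T₁ x).card : ℝ) + ∑ R, ((T₂ R).card : ℝ) := by exact_mod_cast hcard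
    _ ≤ ∑ _x : Idx r₁ r₂ × Option (Idx r₁ r₂), (D.card * V : ℝ) + ∑ R, C R * V :=
        add_le_add (Finset.sum_le_sum fun x _ => h1 x) (Finset.sum_le_sum fun R _ => h2 R)
    _ = (∑ _x : Idx r₁ r₂ × Option (Idx r₁ r₂), (D.card : ℝ) + ∑ R, C R) * V := by
        rw [add_mul, Finset.sum_mul, Finset.sum_mul]

end

end Pool.Agent.V5helper64.LC
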