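import Pool.Agent.N924.LP.Sys
import Pool.Agent.N924.LP.Box

/-!
# Small values of a power series in one variable over `ℤ_p` at integers
-/

set_option autoImplicit false

namespace Pool.Agent.V5helper64.LC

open Pool.Agent.N924.LP Pool.Agent.H33R4 Finset

noncomputable section

variable {p : ℕ} [hp : Fact p.Prime]

lemma cancel {D j : ℕ} {x q : ℤ_[p]} (hx : ¬ (p : ℤ_[p]) ^ D ∣ x)
    (h : (p : ℤ_[p]) ^ (j + D) ∣ p * x * q) : (p : ℤ_[p]) ^ j ∣ q := by
  have hx0 : x ≠ 0 := by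
    rintro rfl
    exact hx (dvd_zero _)
  have hu := PadicInt.unitCoeff_spec hx0
  set v := x.valuation with hv'
  have hv : v < D := by
    by_contra hcon
    rw [not_lt] at hcon
    apply hx
    rw [hu]
    exact (pow_dvd_pow _ hcon).mul_left _
  have hp0 : (p : ℤ_[p]) ≠ 0 := by exact_mod_cast hp.out.ne_zero
  obtain ⟨i, hi⟩ : ∃ i, j + D = (v + 1) + (j + i) := ⟨D - v - 1, by omega⟩
  have e1 : (p : ℤ_[p]) * x * q = (p : ℤ_[p]) ^ (v + 1) * ((PadicInt.unitCoeff hx0 : ℤ_[p]) * q) := by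
    calc (p : ℤ_[p]) * x * q = p * ((PadicInt.unitCoeff hx0 : ℤ_[p]) * p ^ v) * q := by rw [← hu]
      _ = _ := by ring
  rw [e1, hi, pow_add, mul_dvd_mul_iff_left (pow_ne_zero _ hp0)] at h
  have h2 : (p : ℤ_[p]) ^ j ∣ (PadicInt.unitCoeff hx0 : ℤ_[p]) * q :=
    (pow_dvd_pow _ (Nat.le_add_right _ _)).trans h
  exact (Units.dvd_mul_left).1 h2

/-- a power series with many small values is nearly divisible by the product of the linear factors -/
lemma points (D K : ℕ) : ∀ (L : ℕ) (t : Fin L → ℤ_[p]) (g : PowerSeries ℤ_[p]),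
    (∀ i j, i ≠ j → ¬ (p : ℤ_[p]) ^ D ∣ t i - t j) → (∀ i, (p : ℤ_[p]) ^ (K + L * D) ∣ ev1 (t i) g) →
    ∃ q w : PowerSeries ℤ_[p], g = (∏ i, (PowerSeries.X - PowerSeries.C ((p : ℤ_[p]) * t i))) * q +
      PowerSeries.C ((p : ℤ_[p]) ^ K) * w
  | 0, t, g, _, _ => ⟨g, 0, by simp⟩
  | L + 1, t, g, ht, hg => by
    obtain ⟨r, q₁, hq⟩ := rem (dvd_mul_right (p : ℤ_[p]) (t 0)) g
    have hr : ev1 (t 0) g = r := by
      rw [hq, map_add, map_mul, map_sub, (ev1_spec (t 0)).2, (ev1_spec (t 0)).1, (ev1_spec (t 0)).2]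
      ring
    have hrd : (p : ℤ_[p]) ^ (K + (L + 1) * D) ∣ r := hr ▸ hg 0
    have h1 : ∀ i : Fin L, (p : ℤ_[p]) ^ (K + L * D) ∣ ev1 (t i.succ) q₁ := by
      intro i
      have h2 : ev1 (t i.succ) g = r + p * (t i.succ - t 0) * ev1 (t i.succ) q₁ := by
        conv_lhs => rw [hq]
        rw [map_add, map_mul, map_sub, (ev1_spec (t i.succ)).2, (ev1_spec (t i.succ)).1,
          (ev1_spec (t i.succ)).2]
        ring
      have h3 := hg i.succ
      rw [h2, dvd_add_right hrd] at h3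
      refine cancel (ht _ _ (Fin.succ_ne_zero i)) ?_
      rwa [show K + L * D + D = K + (L + 1) * D by ring]
    obtain ⟨q, w, h4⟩ := points D K L (fun i => t i.succ) q₁
      (fun i j hij => ht _ _ (fun h => hij (Fin.succ_injective _ h))) h1
    obtain ⟨c, hc⟩ := hrd
    refine ⟨q, PowerSeries.C ((p : ℤ_[p]) ^ ((L + 1) * D) * c) +
      (PowerSeries.X - PowerSeries.C ((p : ℤ_[p]) * t 0)) * w, ?_⟩
    rw [Fin.prod_univ_succ, hq, h4, hc, pow_add]
    simp only [map_mul]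
    ring

lemma coeff_dvd : ∀ (L : ℕ) (t : Fin L → ℤ_[p]) (q : PowerSeries ℤ_[p]) (m : ℕ),
    (p : ℤ_[p]) ^ (L - m) ∣
      PowerSeries.coeff m ((∏ i, (PowerSeries.X - PowerSeries.C ((p : ℤ_[p]) * t i))) * q)
  | 0, t, q, m => by simp
  | L + 1, t, q, m => by
    rw [Fin.prod_univ_succ, mul_assoc]
    set G := (∏ i : Fin L, (PowerSeries.X - PowerSeries.C ((p : ℤ_[p]) * t i.succ))) * q with hG
    have ih := coeff_dvd L (fun i => t i.succ) q
    rw [← hG] at ih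
    have h2 : (p : ℤ_[p]) ^ (L + 1 - m) ∣ PowerSeries.coeff m (PowerSeries.C ((p : ℤ_[p]) * t 0) * G) := by
      rw [PowerSeries.coeff_C_mul]
      have h3 : (p : ℤ_[p]) ^ (L + 1 - m) ∣ (p : ℤ_[p]) ^ (1 + (L - m)) := pow_dvd_pow _ (by omega)
      refine h3.trans ?_
      rw [pow_add, pow_one, mul_assoc]
      exact mul_dvd_mul_left _ ((ih m).mul_left _)
    rw [sub_mul, map_sub]
    refine dvd_sub ?_ h2
    rcases m with _ | m
    · rw [PowerSeries.coeff_zero_X_mul]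
      exact dvd_zero _
    · rw [PowerSeries.coeff_succ_X_mul]
      have := ih m
      rwa [show L + 1 - (m + 1) = L - m by omega]

lemma not_all {m e D k : ℕ} {g : PowerSeries ℤ_[p]} (hg : ¬ (p : ℤ_[p]) ^ (e + 1) ∣ PowerSeries.coeff m g)
    (hk : (e + 1) + (m + e + 1) * D ≤ k) (t : Fin (m + e + 1) → ℤ_[p])
    (ht : ∀ i j, i ≠ j → ¬ (p : ℤ_[p]) ^ D ∣ t i - t j) (h : ∀ i, (p : ℤ_[p]) ^ k ∣ ev1 (t i) g) : False := by
  obtain ⟨q, w, h1⟩ := points D (e + 1) (m + e + 1) t g ht fun i => (pow_dvd_pow _ hk).trans (h i)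
  apply hg
  rw [h1, map_add]
  refine dvd_add ?_ ?_
  · have := coeff_dvd (m + e + 1) t q m
    rwa [show m + e + 1 - m = e + 1 by omega] at this
  · rw [PowerSeries.coeff_C_mul]
    exact dvd_mul_right _ _

/-- the number of integers in an interval at which a power series is small -/
lemma count_one {m e D k : ℕ} {g : PowerSeries ℤ_[p]}
    (hg : ¬ (p : ℤ_[p]) ^ (e + 1) ∣ PowerSeries.coeff m g) (hk : (e + 1) + (m + e + 1) * D ≤ k)
    (a : ℤ) (N : ℕ) (T : Finset ℤ) (hT : ∀ t ∈ T, t ∈ Ioc a (a + N) ∧ (p : ℤ_[p]) ^ k ∣ ev1 ((t : ℤ) : ℤ_[p]) g) :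
    (T.card : ℝ) ≤ ((m : ℝ) + e) * ((N : ℝ) / (p : ℝ) ^ D + 1) := by
  classical
  have hne : NeZero (p ^ D) := ⟨pow_ne_zero _ hp.out.ne_zero⟩
  set R : Finset (ZMod (p ^ D)) := T.image fun t => ((t : ℤ) : ZMod (p ^ D)) with hR
  have hRc : R.card ≤ m + e := by
    by_contra hcon
    rw [not_le] at hcon
    have hle : m + e + 1 ≤ R.card := hcon
    let f : Fin (m + e + 1) → R := fun i => R.equivFin.symm (Fin.castLE hle i)
    have hf : Function.Injective f := fun i j h =>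
      Fin.castLE_injective hle (R.equivFin.symm.injective h)
    have hex : ∀ c : R, ∃ t ∈ T, ((t : ℤ) : ZMod (p ^ D)) = c := fun c =>
      Finset.mem_image.1 c.2
    choose b hb1 hb2 using hex
    refine not_all hg hk (fun i => ((b (f i) : ℤ) : ℤ_[p])) (fun i j hij hd => ?_)
      (fun i => (hT _ (hb1 (f i))).2)
    have h1 : ((p ^ D : ℕ) : ℤ) ∣ b (f i) - b (f j) := by
      have h2 : (((p ^ D : ℕ) : ℤ) : ℤ_[p]) ∣ ((b (f i) - b (f j) : ℤ) : ℤ_[p]) := by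
        push_cast
        exact hd
      have h3 := (PadicInt.pow_p_dvd_int_iff D (b (f i) - b (f j))).1 (by
        push_cast at h2 ⊢
        exact h2)
      exact_mod_cast h3
    have h4 : ((b (f i) : ℤ) : ZMod (p ^ D)) = ((b (f j) : ℤ) : ZMod (p ^ D)) := by
      rw [← sub_eq_zero, ← Int.cast_sub, ZMod.intCast_zmod_eq_zero_iff_dvd]
      exact h1
    rw [hb2, hb2] at h4
    exact hij (hf (Subtype.ext h4))
  have hfib : ∀ c ∈ R, ((T.filter fun t => ((t : ℤ) : ZMod (p ^ D)) = c).card : ℝ) ≤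
      (N : ℝ) / (p : ℝ) ^ D + 1 := by
    intro c hc
    rw [hR, Finset.mem_image] at hc
    obtain ⟨ρ, _, hρ⟩ := hc
    have h1 : (T.filter fun t => ((t : ℤ) : ZMod (p ^ D)) = c) ⊆
        (Ioc a (a + N)).filter fun x => ((p ^ D : ℕ) : ℤ) ∣ x - ρ := by
      intro t ht
      rw [Finset.mem_filter] at ht ⊢
      refine ⟨(hT t ht.1).1, ?_⟩
      rw [← ZMod.intCast_zmod_eq_zero_iff_dvd, Int.cast_sub, ht.2, hρ, sub_self]
    have h2 := Pool.Agent.N924.LP.count a (a + N) (by linarith [Int.natCast_nonneg N]) (p ^ D)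
      (Nat.one_le_iff_ne_zero.2 (pow_ne_zero _ hp.out.ne_zero)) ρ
    have h3 := (abs_le.1 h2).2
    have h4 : ((T.filter fun t => ((t : ℤ) : ZMod (p ^ D)) = c).card : ℝ) ≤
        (((Ioc a (a + N)).filter fun x => ((p ^ D : ℕ) : ℤ) ∣ x - ρ).card : ℝ) := by
      exact_mod_cast Finset.card_le_card h1
    have h5 : (((a + N : ℤ) : ℝ) - a) / ((p ^ D : ℕ) : ℝ) = (N : ℝ) / (p : ℝ) ^ D := by
      push_cast
      ring
    rw [h5] at h3
    linarith
  have hcard : T.card = ∑ c ∈ R, (T.filter fun t => ((t : ℤ) : ZMod (p ^ D)) = c).card :=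
    Finset.card_eq_sum_card_fiberwise fun t ht => Finset.mem_image_of_mem _ ht
  have h0 : (0 : ℝ) ≤ (N : ℝ) / (p : ℝ) ^ D + 1 := by positivity
  calc (T.card : ℝ) = ∑ c ∈ R, ((T.filter fun t => ((t : ℤ) : ZMod (p ^ D)) = c).card : ℝ) := by
        rw [hcard]
        push_cast
        rfl
    _ ≤ ∑ _c ∈ R, ((N : ℝ) / (p : ℝ) ^ D + 1) := Finset.sum_le_sum hfib
    _ = (R.card : ℝ) * ((N : ℝ) / (p : ℝ) ^ D + 1) := by rw [Finset.sum_const, nsmul_eq_mul]
    _ ≤ ((m : ℝ) + e) * ((N : ℝ) / (p : ℝ) ^ D + 1) := by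
      refine mul_le_mul_of_nonneg_right ?_ h0
      exact_mod_cast hRc

end

end Pool.Agent.V5helper64.LC
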