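import Pool.Agent.V5helper64.LC.One

/-!
# Zeros of a power series in several variables over `ℤ_p` at integral points of boxes

A power series `h ≠ 0` in `s` variables over `ℤ_p` has at most `C N_1 ⋯ N_s / M` zeros `p y`, `y` an integral point of a
box with the sides `N_i ≥ M`, for all boxes. More precisely, at most `C N_1 ⋯ N_s (1 / (k + 1) ^ A + 1 / M)` of these points
have values divisible by `p ^ k`; this is proved by induction on `s`.
-/

set_option autoImplicit false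

namespace Pool.Agent.V5helper64.LC

open Pool.Agent.N924.LP Pool.Agent.H33R4 Finset

noncomputable section

variable {p : ℕ} [hp : Fact p.Prime] {s : ℕ}

/-- the integral points of the box `∏ (w_i, w_i + N_i]` -/
def box (w : Fin s → ℤ) (N : Fin s → ℕ) : Finset (Fin s → ℤ) :=
  Fintype.piFinset fun i => Ioc (w i) (w i + N i)

lemma mem_box {w y : Fin s → ℤ} {N : Fin s → ℕ} : y ∈ box w N ↔ ∀ i, y i ∈ Ioc (w i) (w i + N i) := by
  unfold box
  rw [Fintype.mem_piFinset]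

lemma card_box (w : Fin s → ℤ) (N : Fin s → ℕ) : (box w N).card = ∏ i, N i := by
  unfold box
  rw [Fintype.card_piFinset]
  simp

open Classical in
/-- the points of the box at which the power series is divisible by `p ^ k` -/
def small (Y : Sys p s) (h : Y.R) (k : ℕ) (w : Fin s → ℤ) (N : Fin s → ℕ) : Finset (Fin s → ℤ) :=
  (box w N).filter fun y => (p : ℤ_[p]) ^ k ∣ Y.ev (fun i => ((y i : ℤ) : ℤ_[p])) h

lemma mem_small {Y : Sys p s} {h : Y.R} {k : ℕ} {w y : Fin s → ℤ} {N : Fin s → ℕ} : y ∈ small Y h k w N ↔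
    y ∈ box w N ∧ (p : ℤ_[p]) ^ k ∣ Y.ev (fun i => ((y i : ℤ) : ℤ_[p])) h := by
  classical
  unfold small
  rw [Finset.mem_filter]

/-- few small values -/
def Cnt (Y : Sys p s) : Prop := ∀ h : Y.R, h ≠ 0 → ∀ A : ℕ, ∃ C : ℝ, 0 ≤ C ∧ ∀ (w : Fin s → ℤ)
  (N : Fin s → ℕ) (M : ℕ), 1 ≤ M → (∀ i, M ≤ N i) → ∀ k : ℕ, ((small Y h k w N).card : ℝ) ≤
    C * ((∏ i, (N i : ℝ)) * (1 / ((k : ℝ) + 1) ^ A + 1 / M))

lemma cnt0 : Cnt (sys0 p) := by
  classical
  intro h hh A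
  obtain ⟨k₀, hk₀⟩ : ∃ k₀ : ℕ, ¬ (p : ℤ_[p]) ^ k₀ ∣ (h : ℤ_[p]) := by
    by_contra hcon
    push Not at hcon
    exact hh ((good1_proof.1 p).sep _ hcon)
  refine ⟨((k₀ : ℝ) + 1) ^ A, by positivity, fun w N M hM _ k => ?_⟩
  have hN0 : (0 : ℝ) < M := by exact_mod_cast hM
  rw [Fin.prod_univ_zero, one_mul]
  rcases Nat.lt_or_ge k k₀ with hk | hk
  · have h1 : (small (sys0 p) h k w N).card ≤ 1 := by
      have h2 : (small (sys0 p) h k w N).card ≤ (box w N).card := by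
        unfold small
        exact Finset.card_filter_le _ _
      rwa [card_box, Fin.prod_univ_zero] at h2
    have h2 : ((small (sys0 p) h k w N).card : ℝ) ≤ 1 := by exact_mod_cast h1
    refine h2.trans ?_
    have h3 : (1 : ℝ) ≤ ((k₀ : ℝ) + 1) ^ A * (1 / ((k : ℝ) + 1) ^ A) := by
      rw [mul_one_div, one_le_div (by positivity)]
      refine pow_le_pow_left₀ (by positivity) ?_ A
      have : (k : ℝ) ≤ k₀ := by exact_mod_cast hk.le
      linarith
    refine h3.trans (mul_le_mul_of_nonneg_left ?_ (by positivity))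
    have : (0 : ℝ) ≤ 1 / M := by positivity
    linarith
  · have h1 : small (sys0 p) h k w N = ∅ := by
      rw [Finset.eq_empty_iff_forall_notMem]
      intro y hy
      rw [mem_small] at hy
      exact hk₀ ((pow_dvd_pow _ hk).trans hy.2)
    rw [h1, Finset.card_empty]
    push_cast
    positivity

lemma exp_bound (m A : ℕ) : ∃ C : ℝ, 0 ≤ C ∧ ∀ E : ℕ, ((m : ℝ) + E) * ((E : ℝ) + 2) ^ (2 * A) ≤ C * 2 ^ E := by
  have hlim := tendsto_pow_const_div_const_pow_of_one_lt (2 * A + 1) (r := (2 : ℝ)) one_lt_two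
  obtain ⟨B, hB⟩ := hlim.bddAbove_range
  have hB' : ∀ n : ℕ, (n : ℝ) ^ (2 * A + 1) / 2 ^ n ≤ max B 0 := fun n =>
    (hB ⟨n, rfl⟩).trans (le_max_left _ _)
  refine ⟨4 * ((m : ℝ) + 1) * max B 0, by positivity, fun E => ?_⟩
  have h1 := hB' (E + 2)
  rw [div_le_iff₀ (by positivity)] at h1
  push_cast at h1
  have h2 : (m : ℝ) + E ≤ ((m : ℝ) + 1) * ((E : ℝ) + 2) := by
    have : (0 : ℝ) ≤ m := Nat.cast_nonneg m
    have : (0 : ℝ) ≤ E := Nat.cast_nonneg E
    nlinarith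
  calc ((m : ℝ) + E) * ((E : ℝ) + 2) ^ (2 * A)
      ≤ (((m : ℝ) + 1) * ((E : ℝ) + 2)) * ((E : ℝ) + 2) ^ (2 * A) :=
        mul_le_mul_of_nonneg_right h2 (by positivity)
    _ = ((m : ℝ) + 1) * ((E : ℝ) + 2) ^ (2 * A + 1) := by ring
    _ ≤ ((m : ℝ) + 1) * (max B 0 * 2 ^ (E + 2)) := mul_le_mul_of_nonneg_left h1 (by positivity)
    _ = 4 * ((m : ℝ) + 1) * max B 0 * 2 ^ E := by ring

lemma sum_le (A N : ℕ) : ∑ j ∈ Icc 1 N, 1 / ((j : ℝ) + 1) ^ (2 * A + 2) ≤ 1 := by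
  have h : ∑ j ∈ Icc 1 N, 1 / ((j : ℝ) + 1) ^ (2 * A + 2) ≤ 1 - 1 / ((N : ℝ) + 1) := by
    induction N with
    | zero => simp
    | succ N ih =>
      rw [Finset.sum_Icc_succ_top (by omega)]
      have h1 : 1 / (((N + 1 : ℕ) : ℝ) + 1) ^ (2 * A + 2) ≤ 1 / (((N + 1 : ℕ) : ℝ) + 1) ^ 2 := by
        apply one_div_le_one_div_of_le (by positivity)
        refine pow_le_pow_right₀ ?_ (by omega)
        have : (0 : ℝ) ≤ ((N + 1 : ℕ) : ℝ) := Nat.cast_nonneg _
        linarith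
      have h2 : 1 / (((N + 1 : ℕ) : ℝ) + 1) ^ 2 ≤ 1 / ((N : ℝ) + 1) - 1 / (((N + 1 : ℕ) : ℝ) + 1) := by
        push_cast
        have h0 : (0 : ℝ) ≤ N := Nat.cast_nonneg N
        rw [div_sub_div _ _ (by positivity) (by positivity), div_le_div_iff₀ (by positivity) (by positivity)]
        nlinarith
      linarith
  have : (0 : ℝ) ≤ 1 / ((N : ℝ) + 1) := by positivity
  linarith

/-- one more variable -/
lemma cnt_next (Y : Sys p s) (hY : Cnt Y) : Cnt Y.next := by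
  classical
  intro h₀ hh₀ A
  obtain ⟨h, hh₁⟩ : ∃ h : PowerSeries Y.R, h = h₀ := ⟨h₀, rfl⟩
  have hh : h ≠ 0 := by
    rw [hh₁]
    exact hh₀
  obtain ⟨m, hm⟩ : ∃ m, PowerSeries.coeff m h ≠ 0 := by
    by_contra hc
    push Not at hc
    exact hh (PowerSeries.ext fun n => by simpa using hc n)
  obtain ⟨C₁, hC₁, h1⟩ := hY _ hm (2 * A + 2)
  obtain ⟨C₂, hC₂, h2⟩ := exp_bound m A
  set a := PowerSeries.coeff m h with ha
  set G : ℝ := ((m : ℝ) + 1) ^ (2 * A) with hG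
  have hG0 : 0 ≤ G := by positivity
  have hp2 : (2 : ℝ) ≤ p := by exact_mod_cast hp.out.two_le
  refine ⟨(C₁ + C₂) * G + (3 * C₁ + m) + G, by positivity, fun w NN M hM hMN k => ?_⟩
  obtain ⟨N, hNN⟩ : ∃ N, N = NN 0 := ⟨_, rfl⟩
  have hMN0 : M ≤ N := hNN ▸ hMN 0
  have hN : 1 ≤ N := hM.trans hMN0
  have hM0 : (0 : ℝ) < M := by exact_mod_cast hM
  have hN0 : (0 : ℝ) < N := by exact_mod_cast hN
  have hN1 : (1 : ℝ) ≤ N := by exact_mod_cast hN
  have hMN1 : (M : ℝ) ≤ N := by exact_mod_cast hMN0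
  set N' : Fin s → ℕ := fun i => NN i.succ with hN'
  set X : ℝ := ∏ i, (N' i : ℝ) with hX
  have hX0 : 0 < X := Finset.prod_pos fun i _ => by exact_mod_cast (hM.trans (hMN i.succ))
  have hXN : ∏ i, (NN i : ℝ) = X * N := by
    rw [Fin.prod_univ_succ, ← hNN, mul_comm]
  have hk1 : (0 : ℝ) < ((k : ℝ) + 1) ^ A := by positivity
  set Q : ℝ := X * N / ((k : ℝ) + 1) ^ A with hQ
  have hQ0 : 0 ≤ Q := by positivity
  set Z : ℝ := X * N / M with hZ
  have hZ0 : 0 ≤ Z := by positivity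
  have hXZ : X ≤ Z := by
    rw [hZ, le_div_iff₀ hM0]
    exact mul_le_mul_of_nonneg_left hMN1 hX0.le
  have hgoal : (∏ i, (NN i : ℝ)) * (1 / ((k : ℝ) + 1) ^ A + 1 / M) = Q + Z := by
    rw [hXN, hQ, hZ]
    ring
  rw [hgoal]
  have hm0 : (0 : ℝ) ≤ m := Nat.cast_nonneg m
  rcases Nat.lt_or_ge (Nat.sqrt k) (m + 1) with hr | hr
  · -- small `k`
    have h3 : ((small Y.next h₀ k w NN).card : ℝ) ≤ X * N := by
      have h4 : (small Y.next h₀ k w NN).card ≤ (box w NN).card := by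
        unfold small
        exact Finset.card_filter_le _ _
      rw [card_box] at h4
      rw [← hXN]
      exact_mod_cast h4
    have h5 : k < (m + 1) ^ 2 := Nat.sqrt_lt'.1 hr
    have h6 : ((k : ℝ) + 1) ≤ ((m : ℝ) + 1) ^ 2 := by exact_mod_cast h5
    have h7 : ((k : ℝ) + 1) ^ A ≤ G := by
      rw [hG, pow_mul]
      exact pow_le_pow_left₀ (by positivity) h6 A
    have h8 : X * N ≤ G * Q := by
      rw [hQ, mul_div_assoc', le_div_iff₀ hk1, mul_comm G]
      exact mul_le_mul_of_nonneg_left h7 (by positivity)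
    have h9 : G * Q ≤ ((C₁ + C₂) * G + (3 * C₁ + m) + G) * (Q + Z) := by
      have e1 : ((C₁ + C₂) * G + (3 * C₁ + m) + G) * (Q + Z) =
        G * Q + (((C₁ + C₂) * G + (3 * C₁ + m)) * (Q + Z) + G * Z) := by ring
      rw [e1]
      have : 0 ≤ ((C₁ + C₂) * G + (3 * C₁ + m)) * (Q + Z) + G * Z := by positivity
      linarith
    linarith
  -- large `k`
  obtain ⟨E, hE⟩ : ∃ E, Nat.sqrt k = E + (m + 1) := ⟨Nat.sqrt k - (m + 1), by omega⟩
  have hEk : (E + m + 1) * (E + m + 1) ≤ k := by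
    have h3 := Nat.sqrt_le k
    rw [hE] at h3
    exact h3
  have hkE : k < (E + m + 2) * (E + m + 2) := by
    have h3 := Nat.lt_succ_sqrt k
    rw [hE] at h3
    exact h3
  set w' : Fin s → ℤ := fun i => w i.succ with hw'
  -- the value of `a`
  let va : (Fin s → ℤ) → ℤ_[p] := fun y' => Y.ev (fun i => ((y' i : ℤ) : ℤ_[p])) a
  let ē : (Fin s → ℤ) → ℕ := fun y' => ((Icc 1 N).filter fun j => (p : ℤ_[p]) ^ j ∣ va y').card
  let n : (Fin s → ℤ) → ℕ := fun y' =>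
    ((small Y.next h₀ k w NN).filter fun y => (fun i : Fin s => y i.succ) = y').card
  have hsum : (small Y.next h₀ k w NN).card = ∑ y' ∈ box w' N', n y' := by
    refine Finset.card_eq_sum_card_fiberwise fun y hy => ?_
    have h3 := (mem_small.1 (Finset.mem_coe.1 hy)).1
    rw [mem_box] at h3
    exact Finset.mem_coe.2 (mem_box.2 fun i => h3 i.succ)
  -- the fibres
  have hT : ∀ y' : Fin s → ℤ, ∃ T : Finset ℤ, T.card = n y' ∧ ∀ t ∈ T, t ∈ Ioc (w 0) (w 0 + N) ∧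
      (p : ℤ_[p]) ^ k ∣ ev1 ((t : ℤ) : ℤ_[p]) (PowerSeries.map (Y.ev fun i => ((y' i : ℤ) : ℤ_[p])) h) := by
    intro y'
    refine ⟨((small Y.next h₀ k w NN).filter fun y => (fun i : Fin s => y i.succ) = y').image
      fun y => y 0, ?_, ?_⟩
    · refine Finset.card_image_of_injOn fun y hy z hz hyz => ?_
      rw [Finset.mem_coe, Finset.mem_filter] at hy hz
      funext i
      refine Fin.cases hyz (fun i => ?_) i
      have h3 : (fun i : Fin s => y i.succ) = fun i : Fin s => z i.succ := hy.2.trans hz.2.symm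
      exact congrFun h3 i
    · intro t ht
      rw [Finset.mem_image] at ht
      obtain ⟨y, hy, rfl⟩ := ht
      rw [Finset.mem_filter, mem_small, mem_box] at hy
      refine ⟨by rw [hNN]; exact hy.1.1 0, ?_⟩
      have h3 := hy.1.2
      rw [← hy.2, hh₁]
      exact h3
  have hnN : ∀ y', (n y' : ℝ) ≤ N := by
    intro y'
    obtain ⟨T, hT1, hT2⟩ := hT y'
    have h3 : T.card ≤ (Ioc (w 0) (w 0 + N)).card := Finset.card_le_card fun t ht => (hT2 t ht).1
    rw [hT1] at h3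
    simp only [Int.card_Ioc, add_sub_cancel_left, Int.toNat_natCast] at h3
    exact_mod_cast h3
  -- the main estimate on a fibre
  have hn : ∀ y', ¬ (p : ℤ_[p]) ^ (E + 1) ∣ va y' →
      (n y' : ℝ) ≤ ((m : ℝ) + E) * N / 2 ^ E + (m + ē y') := by
    intro y' hy'
    have hex : ∃ e : ℕ, ¬ (p : ℤ_[p]) ^ (e + 1) ∣ va y' := ⟨E, hy'⟩
    set e := Nat.find hex with he
    have he1 : ¬ (p : ℤ_[p]) ^ (e + 1) ∣ va y' := Nat.find_spec hex
    have heE : e ≤ E := Nat.find_min' hex hy'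
    have he2 : ∀ j, 1 ≤ j → j ≤ e → (p : ℤ_[p]) ^ j ∣ va y' := by
      intro j hj1 hj
      have h3 := Nat.find_min hex (m := j - 1) (by omega)
      rw [not_not] at h3
      rwa [show j - 1 + 1 = j by omega] at h3
    have hbase : (0 : ℝ) ≤ ((m : ℝ) + E) * N / 2 ^ E := by positivity
    rcases Nat.lt_or_ge N e with hNe | hNe
    · have h3 : ē y' = N := by
        change ((Icc 1 N).filter fun j => (p : ℤ_[p]) ^ j ∣ va y').card = N
        rw [Finset.filter_true_of_mem, Nat.card_Icc]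
        · omega
        · intro j hj
          rw [Finset.mem_Icc] at hj
          exact he2 j hj.1 (by omega)
      have h4 := hnN y'
      rw [h3]
      linarith
    · have h3 : e ≤ ē y' := by
        have h4 : Icc 1 e ⊆ (Icc 1 N).filter fun j => (p : ℤ_[p]) ^ j ∣ va y' := by
          intro j hj
          rw [Finset.mem_Icc] at hj
          rw [Finset.mem_filter, Finset.mem_Icc]
          exact ⟨⟨hj.1, hj.2.trans hNe⟩, he2 j hj.1 hj.2⟩
        have h5 := Finset.card_le_card h4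
        rwa [Nat.card_Icc, show e + 1 - 1 = e by omega] at h5
      obtain ⟨T, hT1, hT2⟩ := hT y'
      have hcoef : ¬ (p : ℤ_[p]) ^ (e + 1) ∣
          PowerSeries.coeff m (PowerSeries.map (Y.ev fun i => ((y' i : ℤ) : ℤ_[p])) h) := by
        rw [PowerSeries.coeff_map]
        exact he1
      have hkk : (e + 1) + (m + e + 1) * E ≤ k := by
        refine le_trans ?_ hEk
        calc (e + 1) + (m + e + 1) * E ≤ (E + m + 1) + (E + m + 1) * (E + m) :=
              Nat.add_le_add (by omega) (Nat.mul_le_mul (by omega) (by omega))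
          _ = (E + m + 1) * (E + m + 1) := by ring
      have h5 := count_one hcoef hkk (w 0) N T hT2
      rw [hT1] at h5
      have heR : (e : ℝ) ≤ E := by exact_mod_cast heE
      have he3 : (e : ℝ) ≤ ē y' := by exact_mod_cast h3
      have h6 : (N : ℝ) / (p : ℝ) ^ E ≤ N / 2 ^ E :=
        div_le_div_of_nonneg_left hN0.le (by positivity) (pow_le_pow_left₀ (by norm_num) hp2 E)
      have he0 : (0 : ℝ) ≤ e := Nat.cast_nonneg e
      calc (n y' : ℝ) ≤ ((m : ℝ) + e) * ((N : ℝ) / (p : ℝ) ^ E + 1) := h5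
        _ ≤ ((m : ℝ) + e) * (N / 2 ^ E + 1) :=
            mul_le_mul_of_nonneg_left (by linarith) (by positivity)
        _ = ((m : ℝ) + e) * (N / 2 ^ E) + (m + e) := by ring
        _ ≤ ((m : ℝ) + E) * (N / 2 ^ E) + (m + ē y') := by
            have h7 : ((m : ℝ) + e) * (N / 2 ^ E) ≤ ((m : ℝ) + E) * (N / 2 ^ E) :=
              mul_le_mul_of_nonneg_right (by linarith) (by positivity)
            linarith
        _ = ((m : ℝ) + E) * N / 2 ^ E + (m + ē y') := by ring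
  have hpt : ∀ y' ∈ box w' N', (n y' : ℝ) ≤ (if (p : ℤ_[p]) ^ (E + 1) ∣ va y' then (N : ℝ) else 0) +
      (((m : ℝ) + E) * N / 2 ^ E + (m + ē y')) := by
    intro y' _
    have hbase : (0 : ℝ) ≤ ((m : ℝ) + E) * N / 2 ^ E + (m + ē y') := by positivity
    split_ifs with hd
    · linarith [hnN y']
    · linarith [hn y' hd]
  -- the sums
  have hS1 : ∑ y' ∈ box w' N', (if (p : ℤ_[p]) ^ (E + 1) ∣ va y' then (N : ℝ) else 0) ≤
      N * (C₁ * (X * (1 / (((E + 1 : ℕ) : ℝ) + 1) ^ (2 * A + 2) + 1 / M))) := by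
    rw [← Finset.sum_filter, Finset.sum_const, nsmul_eq_mul, mul_comm]
    refine mul_le_mul_of_nonneg_left ?_ hN0.le
    exact h1 w' N' M hM (fun i => hMN i.succ) (E + 1)
  have hS2 : ∑ y' ∈ box w' N', (ē y' : ℝ) ≤ 2 * C₁ * Z := by
    have e1 : ∑ y' ∈ box w' N', ē y' = ∑ j ∈ Icc 1 N, (small Y a j w' N').card := by
      change ∑ y' ∈ box w' N', ((Icc 1 N).filter fun j => (p : ℤ_[p]) ^ j ∣ va y').card = _
      simp only [Finset.card_filter]
      rw [Finset.sum_comm]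
      refine Finset.sum_congr rfl fun j _ => ?_
      unfold small
      rw [Finset.card_filter]
    have e2 : ∑ y' ∈ box w' N', (ē y' : ℝ) = ∑ j ∈ Icc 1 N, ((small Y a j w' N').card : ℝ) := by
      exact_mod_cast e1
    rw [e2]
    calc ∑ j ∈ Icc 1 N, ((small Y a j w' N').card : ℝ)
        ≤ ∑ j ∈ Icc 1 N, (C₁ * X * (1 / ((j : ℝ) + 1) ^ (2 * A + 2)) + C₁ * X / M) := by
          refine Finset.sum_le_sum fun j _ =>
            (h1 w' N' M hM (fun i => hMN i.succ) j).trans (le_of_eq ?_)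
          rw [← hX]
          ring
      _ = C₁ * X * ∑ j ∈ Icc 1 N, 1 / ((j : ℝ) + 1) ^ (2 * A + 2) + N * (C₁ * X / M) := by
          rw [Finset.sum_add_distrib, ← Finset.mul_sum, Finset.sum_const, nsmul_eq_mul, Nat.card_Icc]
          norm_num
      _ ≤ C₁ * X * 1 + C₁ * Z := by
          have h3 : (N : ℝ) * (C₁ * X / M) = C₁ * Z := by
            rw [hZ]
            ring
          rw [h3]
          have := mul_le_mul_of_nonneg_left (sum_le A N) (by positivity : 0 ≤ C₁ * X)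
          linarith
      _ ≤ 2 * C₁ * Z := by
          have := mul_le_mul_of_nonneg_left hXZ hC₁
          linarith
  have htot : ((small Y.next h₀ k w NN).card : ℝ) ≤
      N * (C₁ * (X * (1 / (((E + 1 : ℕ) : ℝ) + 1) ^ (2 * A + 2) + 1 / M))) +
        (X * (((m : ℝ) + E) * N / 2 ^ E) + (X * m + 2 * C₁ * Z)) := by
    rw [hsum]
    push_cast
    calc ∑ y' ∈ box w' N', (n y' : ℝ) ≤ ∑ y' ∈ box w' N',
          ((if (p : ℤ_[p]) ^ (E + 1) ∣ va y' then (N : ℝ) else 0) +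
            (((m : ℝ) + E) * N / 2 ^ E + (m + ē y'))) := Finset.sum_le_sum hpt
      _ = ∑ y' ∈ box w' N', (if (p : ℤ_[p]) ^ (E + 1) ∣ va y' then (N : ℝ) else 0) +
          (X * (((m : ℝ) + E) * N / 2 ^ E) + (X * m + ∑ y' ∈ box w' N', (ē y' : ℝ))) := by
          rw [Finset.sum_add_distrib, Finset.sum_add_distrib, Finset.sum_add_distrib, Finset.sum_const,
            Finset.sum_const, nsmul_eq_mul, nsmul_eq_mul, card_box]
          push_cast
          rfl
      _ ≤ _ := by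
          push_cast at hS1 ⊢
          linarith
  -- comparison of `E` and `k`
  have hkEG : ((k : ℝ) + 1) ^ A ≤ G * ((E : ℝ) + 2) ^ (2 * A) := by
    have h3 : (k : ℝ) + 1 ≤ (((m : ℝ) + 1) * ((E : ℝ) + 2)) ^ 2 := by
      have h4 : (k : ℝ) + 1 ≤ ((E : ℝ) + m + 2) * ((E : ℝ) + m + 2) := by exact_mod_cast hkE
      have hE0 : (0 : ℝ) ≤ E := Nat.cast_nonneg E
      have h5 : (E : ℝ) + m + 2 ≤ ((m : ℝ) + 1) * ((E : ℝ) + 2) := by nlinarith
      calc (k : ℝ) + 1 ≤ ((E : ℝ) + m + 2) * ((E : ℝ) + m + 2) := h4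
        _ ≤ (((m : ℝ) + 1) * ((E : ℝ) + 2)) * (((m : ℝ) + 1) * ((E : ℝ) + 2)) :=
            mul_le_mul h5 h5 (by positivity) (by positivity)
        _ = _ := by ring
    calc ((k : ℝ) + 1) ^ A ≤ ((((m : ℝ) + 1) * ((E : ℝ) + 2)) ^ 2) ^ A :=
          pow_le_pow_left₀ (by positivity) h3 A
      _ = G * ((E : ℝ) + 2) ^ (2 * A) := by
          rw [hG, ← pow_mul, mul_pow]
  have hE2 : (0 : ℝ) < ((E : ℝ) + 2) ^ (2 * A) := by positivity
  have hinv : X * N / ((E : ℝ) + 2) ^ (2 * A) ≤ G * Q := by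
    rw [hQ, mul_div_assoc', div_le_div_iff₀ hE2 hk1]
    calc X * N * ((k : ℝ) + 1) ^ A ≤ X * N * (G * ((E : ℝ) + 2) ^ (2 * A)) :=
          mul_le_mul_of_nonneg_left hkEG (by positivity)
      _ = G * (X * N) * ((E : ℝ) + 2) ^ (2 * A) := by ring
  have hA1 : N * (C₁ * (X * (1 / (((E + 1 : ℕ) : ℝ) + 1) ^ (2 * A + 2) + 1 / M))) ≤ C₁ * (G * Q) + C₁ * Z := by
    have e1 : (((E + 1 : ℕ) : ℝ) + 1) = (E : ℝ) + 2 := by push_cast; ring
    have h3 : X * N / ((E : ℝ) + 2) ^ (2 * A + 2) ≤ G * Q := by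
      refine le_trans ?_ hinv
      refine div_le_div_of_nonneg_left (by positivity) hE2 ?_
      refine pow_le_pow_right₀ ?_ (by omega)
      have : (0 : ℝ) ≤ E := Nat.cast_nonneg E
      linarith
    rw [e1]
    calc N * (C₁ * (X * (1 / ((E : ℝ) + 2) ^ (2 * A + 2) + 1 / M)))
        = C₁ * (X * N / ((E : ℝ) + 2) ^ (2 * A + 2)) + C₁ * Z := by
          rw [hZ]
          ring
      _ ≤ C₁ * (G * Q) + C₁ * Z := by
          have := mul_le_mul_of_nonneg_left h3 hC₁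
          linarith
  have hA2 : X * (((m : ℝ) + E) * N / 2 ^ E) ≤ C₂ * (G * Q) := by
    have h3 : ((m : ℝ) + E) / 2 ^ E ≤ C₂ / ((E : ℝ) + 2) ^ (2 * A) := by
      rw [div_le_div_iff₀ (by positivity) hE2]
      exact h2 E
    calc X * (((m : ℝ) + E) * N / 2 ^ E) = X * N * (((m : ℝ) + E) / 2 ^ E) := by ring
      _ ≤ X * N * (C₂ / ((E : ℝ) + 2) ^ (2 * A)) := mul_le_mul_of_nonneg_left h3 (by positivity)
      _ = C₂ * (X * N / ((E : ℝ) + 2) ^ (2 * A)) := by ring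
      _ ≤ C₂ * (G * Q) := mul_le_mul_of_nonneg_left hinv hC₂
  have hmZ : X * m ≤ Z * m := mul_le_mul_of_nonneg_right hXZ hm0
  calc ((small Y.next h₀ k w NN).card : ℝ)
      ≤ (C₁ * (G * Q) + C₁ * Z) + (C₂ * (G * Q) + (Z * m + 2 * C₁ * Z)) := by linarith
    _ ≤ ((C₁ + C₂) * G + (3 * C₁ + m) + G) * (Q + Z) := by
        have h3 : 0 ≤ (C₁ + C₂) * G * Z + (3 * C₁ + m) * Q + G * (Q + Z) := by positivity
        have e1 : ((C₁ + C₂) * G + (3 * C₁ + m) + G) * (Q + Z) =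
          (C₁ * (G * Q) + C₁ * Z) + (C₂ * (G * Q) + (Z * m + 2 * C₁ * Z)) +
            ((C₁ + C₂) * G * Z + (3 * C₁ + m) * Q + G * (Q + Z)) := by ring
        rw [e1]
        linarith

theorem exists_cnt (p : ℕ) [Fact p.Prime] (s : ℕ) : ∃ Y : Sys p s, Cnt Y := by
  induction s with
  | zero => exact ⟨sys0 p, cnt0⟩
  | succ s ih =>
    obtain ⟨Y, hY⟩ := ih
    exact ⟨Y.next, cnt_next Y hY⟩

/-- **Zeros in boxes.** -/
theorem Cnt.zeros {Y : Sys p s} (hY : Cnt Y) {h : Y.R} (hh : h ≠ 0) : ∃ C : ℝ, 0 ≤ C ∧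
    ∀ (w : Fin s → ℤ) (N : Fin s → ℕ) (M : ℕ), 1 ≤ M → (∀ i, M ≤ N i) → ∀ T : Finset (Fin s → ℤ),
      (∀ y ∈ T, y ∈ box w N ∧ Y.ev (fun i => ((y i : ℤ) : ℤ_[p])) h = 0) →
      (T.card : ℝ) ≤ C * ((∏ i, (N i : ℝ)) / M) := by
  obtain ⟨C, hC, h1⟩ := hY h hh 1
  refine ⟨2 * C, by positivity, fun w N M hM hMN T hT => ?_⟩
  have hM0 : (0 : ℝ) < M := by exact_mod_cast hM
  have h2 := h1 w N M hM hMN M
  have h3 : T ⊆ small Y h M w N := by
    intro y hy
    rw [mem_small]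
    refine ⟨(hT y hy).1, ?_⟩
    rw [(hT y hy).2]
    exact dvd_zero _
  have h4 : (T.card : ℝ) ≤ ((small Y h M w N).card : ℝ) := by exact_mod_cast Finset.card_le_card h3
  have h5 : 1 / ((M : ℝ) + 1) ^ 1 ≤ 1 / M := by
    rw [pow_one]
    exact one_div_le_one_div_of_le hM0 (by linarith)
  have h6 : 0 ≤ ∏ i, (N i : ℝ) := Finset.prod_nonneg fun i _ => Nat.cast_nonneg _
  calc (T.card : ℝ) ≤ C * ((∏ i, (N i : ℝ)) * (1 / ((M : ℝ) + 1) ^ 1 + 1 / M)) := h4.trans h2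
    _ ≤ C * ((∏ i, (N i : ℝ)) * (1 / M + 1 / M)) :=
        mul_le_mul_of_nonneg_left (mul_le_mul_of_nonneg_left (by linarith) h6) hC
    _ = 2 * C * ((∏ i, (N i : ℝ)) / M) := by ring

end

end Pool.Agent.V5helper64.LC
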